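import Pool.Agent.Helper17.SLD.Goals

/-!
# Project SLD: packet ND (non degeneracy)
-/

namespace Pool.Agent.Helper17.SLD.PkND

open Pool.Agent.Helper17.SL Pool.Agent.Helper42.SLC
open Pool.Agent.Helper51.SigLeo Pool.Agent.Helper51.SixExp NumberField Module TensorProduct

universe u v w x y

theorem thm (hSPL : S_SPL.{u, v, w}) (hTR : S_TRANS.{w, x, y, v}) (hGA3 : S_GA3.{v, y}) :
    S_ND.{u, v, w, x, y} := by
  classical
  intro F _ _ _ N _ _ _ _ _ Ω _ _ _ _ p _ k _ _ _ _ ιp Λ E _ _ lam θ J D n η s τ v w e hn hτ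
    hodd heven hη he hv hw t x y ht hxy hsum
  have hchar : CharZero k := charZero_of_padic p (k := k)
  obtain ⟨m, hm⟩ : ∃ m, t m ≠ 0 := by
    by_contra h
    push Not at h
    exact ht (funext h)
  obtain ⟨ι₀, -⟩ := exists_comp_eq (τ m) (Classical.arbitrary (N →+* ℂ))
  set ε : E →+* ℂ := ι₀.comp lam with hε
  set f : Fin n → (N →+* ℂ) → ℂ := fun m ρ ↦
    ε (t m) * ∑ j, ε (x j) * Phi ε (archLog ρ) (tchi θ (v j)) with hf
  set g : Fin n → (N →+* ℂ) → ℂ := fun m ρ ↦
    ε (t m) * ∑ i, ε (y i * e i m) * Phi ε (archLog ρ) (tchi (θ * η i) (w i)) with hg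
  -- transfer
  have htrans : ∀ ι' : Ω →+* ℂ, ∑ m, (f m (ι'.comp (τ m)) + g m (ι'.comp (τ m))) = 0 := by
    intro ι'
    have h3 := hTR p k Ω ιp Λ E lam ((Fin n × (Fin J ⊕ Fin D)) × (N ≃ₐ[F] N))
      (fun r ↦ t r.1.1 * (Sum.elim (fun j ↦ x j * ((θ r.2⁻¹ : Eˣ) : E))
        (fun i ↦ y i * e i r.1.1 * (((θ * η i) r.2⁻¹ : Eˣ) : E)) r.1.2))
      (fun r ↦ img (τ r.1.1) (unitsHom r.2 (Sum.elim v w r.1.2)).toMul)
      (fun r ↦ img_isUnitAlg _ _) (by
        rw [Fintype.sum_prod_type, Fintype.sum_prod_type, ← hsum]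
        refine Finset.sum_congr rfl fun m _ ↦ ?_
        rw [Fintype.sum_sum_type, mul_add, Finset.mul_sum, Finset.mul_sum]
        congr 1
        · refine Finset.sum_congr rfl fun j _ ↦ ?_
          rw [Phi_tchi, Finset.mul_sum, Finset.mul_sum]
          refine Finset.sum_congr rfl fun g _ ↦ ?_
          rw [smul_eq_mul, log_img]
          simp only [Sum.elim_inl, map_mul, RingHom.comp_apply, ofMul_toMul]
          ring
        · refine Finset.sum_congr rfl fun i _ ↦ ?_
          rw [Phi_tchi, Finset.mul_sum, Finset.mul_sum]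
          refine Finset.sum_congr rfl fun g _ ↦ ?_
          rw [smul_eq_mul, log_img]
          simp only [Sum.elim_inr, map_mul, RingHom.comp_apply, ofMul_toMul]
          ring) ε ι'
    rw [Fintype.sum_prod_type, Fintype.sum_prod_type] at h3
    rw [← h3]
    refine Finset.sum_congr rfl fun m _ ↦ ?_
    rw [Fintype.sum_sum_type]
    congr 1
    · rw [hf]
      simp only
      rw [Finset.mul_sum]
      refine Finset.sum_congr rfl fun j _ ↦ ?_
      rw [Phi_tchi, Finset.mul_sum, Finset.mul_sum]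
      refine Finset.sum_congr rfl fun g _ ↦ ?_
      rw [smul_eq_mul]
      simp only [Sum.elim_inl, map_mul]
      rw [mul_assoc, mul_assoc]
      rfl
    · rw [hg]
      simp only
      rw [Finset.mul_sum]
      refine Finset.sum_congr rfl fun i _ ↦ ?_
      rw [Phi_tchi, Finset.mul_sum, Finset.mul_sum]
      refine Finset.sum_congr rfl fun g _ ↦ ?_
      rw [smul_eq_mul]
      simp only [Sum.elim_inr, map_mul]
      rw [mul_assoc, mul_assoc, mul_assoc, mul_assoc]
      rfl
  have hcomp : ∀ (ρ' : N →+* ℂ) (c : N ≃ₐ[F] N) (χ : (N ≃ₐ[F] N) →* Eˣ) (u : Additive (𝓞 N)ˣ),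
      Phi ε (archLog (ρ'.comp (c : N →+* N))) (tchi χ u) =
        ε ((χ c : Eˣ) : E) * Phi ε (archLog ρ') (tchi χ u) := by
    intro ρ' c χ u
    rw [archLog_comp, Phi_tchi_comp, smul_eq_mul]
  have hspl := hSPL F N Ω n τ f g s hn hτ (fun m ρ ↦ by rw [hf]; simp only [archLog_conj])
    (fun m ρ ↦ by rw [hg]; simp only [archLog_conj]) (by
      intro ρ c hc
      refine ⟨fun hs m ρ' ↦ ⟨?_, ?_⟩, fun hs m ρ' ↦ ⟨?_, ?_⟩⟩
      · have h1 := (hodd ρ c hc).1 hs
        simp only [hf]
        rw [← mul_neg, ← Finset.sum_neg_distrib]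
        congr 1
        refine Finset.sum_congr rfl fun j _ ↦ ?_
        rw [hcomp, h1, Units.val_neg, Units.val_one, map_neg, map_one]
        ring
      · simp only [hg]
        congr 1
        refine Finset.sum_congr rfl fun i _ ↦ ?_
        rw [hcomp, (heven i ρ c hc).1 hs, Units.val_one, map_one]
        ring
      · have h1 := (hodd ρ c hc).2 hs
        simp only [hf]
        congr 1
        refine Finset.sum_congr rfl fun j _ ↦ ?_
        rw [hcomp, h1, Units.val_one, map_one]
        ring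
      · simp only [hg]
        rw [← mul_neg, ← Finset.sum_neg_distrib]
        congr 1
        refine Finset.sum_congr rfl fun i _ ↦ ?_
        rw [hcomp, (heven i ρ c hc).2 hs, Units.val_neg, Units.val_one, map_neg, map_one]
        ring) htrans
  have hεm : ε (t m) ≠ 0 := (map_ne_zero ε).2 hm
  -- the first family
  have hx : x = 0 := by
    have h1 : ∑ j, x j • tchi θ (v j) = 0 := by
      refine hGA3 N E ε _ fun ρ ↦ ?_
      have h2 := (hspl m ρ).1
      simp only [hf] at h2
      have h3 := (mul_eq_zero.mp h2).resolve_left hεm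
      rw [map_sum, ← h3]
      refine Finset.sum_congr rfl fun j _ ↦ ?_
      rw [Phi_smul, smul_eq_mul]
    funext j
    exact (Fintype.linearIndependent_iff.1 hv) x h1 j
  have hy : y ≠ 0 := hxy.resolve_left (fun h ↦ h hx)
  obtain ⟨i, hi⟩ : ∃ i, y i ≠ 0 := by
    by_contra h
    push Not at h
    exact hy (funext h)
  apply hw i
  refine hGA3 N E ε _ fun ρ ↦ ?_
  have hinj : Function.Injective (fun i ↦ (Units.map (ε : E →* ℂ)).comp (θ * η i)) := by
    intro q q' hqq
    apply hη
    ext c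
    apply ε.injective
    have h1 := congrArg (fun z : ℂˣ ↦ (z : ℂ)) (DFunLike.congr_fun hqq c)
    have h2 : ε (((θ c : Eˣ) : E) * ((η q c : Eˣ) : E)) =
        ε (((θ c : Eˣ) : E) * ((η q' c : Eˣ) : E)) := by simpa using h1
    rw [map_mul, map_mul] at h2
    exact mul_left_cancel₀ ((map_ne_zero ε).2 (Units.ne_zero _)) h2
  have hded := dedekind (fun i ↦ (Units.map (ε : E →* ℂ)).comp (θ * η i)) hinj
    (fun i ↦ ε (y i * e i m) * Phi ε (archLog ρ) (tchi (θ * η i) (w i))) (by
      intro c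
      have h2 := (hspl m (ρ.comp (c : N →+* N))).2
      simp only [hg] at h2
      have h3 := (mul_eq_zero.mp h2).resolve_left hεm
      rw [← h3]
      refine Finset.sum_congr rfl fun i _ ↦ ?_
      rw [hcomp]
      show _ * ε (((θ * η i) c : Eˣ) : E) = _
      ring) i
  exact (mul_eq_zero.mp hded).resolve_left ((map_ne_zero ε).2 (mul_ne_zero hi (he i m)))

end Pool.Agent.Helper17.SLD.PkND
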